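import Pool.Agent.Helper69.HA.Defs2
import Pool.Agent.Helper85.MA.Bound

/-!
# Project HA (helper69), module HA-11: bookkeeping
-/

set_option autoImplicit false
set_option linter.unusedSectionVars false

namespace Pool.Agent.Helper69.HA

open Set Pool.Agent.Helper33.HM Pool.Agent.Helper33.HMG Pool.Agent.Helper32.HB
open Pool.Agent.Helper52.MA (PCCC)

universe u

/-- The families of sets of conditions of length `β`. -/
def Book_K (Ω : Type) (β : Ordinal.{0}) : Type 1 :=
  {X : Ω → Set (Cond Ordinal.{0} Ω) // ∀ x, ∀ p ∈ X x, p.lt β}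

theorem Book_small (Ω : Type) (β : Ordinal.{0}) : Small.{0} (Book_K Ω β) := by
  have h1 : Small.{0} (Iio β → Dat Ω) := inferInstance
  have h2 : Small.{0} (Ω → Set (Iio β → Dat Ω)) := inferInstance
  let F : Book_K Ω β → (Ω → Set (Iio β → Dat Ω)) :=
    fun X x => {f | ∃ p ∈ X.1 x, ∀ i, f i = p.f i.1}
  have hF : Function.Injective F := by
    have key : ∀ X X' : Book_K Ω β, F X = F X' → ∀ x, X.1 x ⊆ X'.1 x := by
      intro X X' h x p hp
      have h3 : (fun i : Iio β => p.f i.1) ∈ F X x := ⟨p, hp, fun _ => rfl⟩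
      rw [h] at h3
      obtain ⟨p', hp', h4⟩ := h3
      have h5 : p = p' := by
        apply Cond.ext
        funext j
        by_cases hj : j < β
        · exact h4 ⟨j, hj⟩
        · have h6 : p.f j = Dat.emp := by
            by_contra hc
            exact hj (X.2 x p hp j hc)
          have h7 : p'.f j = Dat.emp := by
            by_contra hc
            exact hj (X'.2 x p' hp' j hc)
          rw [h6, h7]
      rw [h5]
      exact hp'
    intro X X' h
    apply Subtype.ext
    funext x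
    exact Subset.antisymm (key X X' h x) (key X' X h.symm x)
  exact small_of_injective hF

theorem Book_card (Ω : Type) :
    Cardinal.mk ((Σ β : Ordinal.{0}, Book_K Ω β) × Ordinal.{0}) ≤ Cardinal.mk Ordinal.{0} := by
  have hinf : Cardinal.aleph0 ≤ Cardinal.mk Ordinal.{0} := by
    rw [Cardinal.mk_ordinal]
    exact (Cardinal.lift_lt_univ'.{0, 1} Cardinal.aleph0).le.trans' (by simp)
  have h1 : Cardinal.mk (Σ β : Ordinal.{0}, Book_K Ω β) ≤ Cardinal.mk Ordinal.{0} := by
    rw [Cardinal.mk_sigma]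
    refine (Cardinal.sum_le_sum _ (fun _ => Cardinal.mk Ordinal.{0}) ?_).trans ?_
    · intro β
      have h2 := Cardinal.small_iff_lift_mk_lt_univ.1 (Book_small Ω β)
      rw [Cardinal.mk_ordinal]
      simpa using h2.le
    · rw [Cardinal.sum_const']
      exact (Cardinal.mul_eq_self hinf).le
  rw [Cardinal.mk_prod, Cardinal.lift_id, Cardinal.lift_id]
  exact (mul_le_mul' h1 le_rfl).trans (Cardinal.mul_eq_self hinf).le

/-- HA-11: bookkeeping. -/
theorem exists_code (Ω : Type) :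
    ∃ code : Ordinal.{0} → Ω → Set (Cond Ordinal.{0} Ω),
      ∀ (β : Ordinal.{0}) (X : Ω → Set (Cond Ordinal.{0} Ω)), (∀ x, ∀ p ∈ X x, p.lt β) →
        ∃ i, β ≤ i ∧ code i = X := by
  obtain ⟨g⟩ := Cardinal.le_def _ _ |>.1 (Book_card Ω)
  refine ⟨fun i x => {p | ∃ z : (Σ β : Ordinal.{0}, Book_K Ω β) × Ordinal.{0}, g z = i ∧
    p ∈ z.1.2.1 x}, ?_⟩
  intro β X hX
  by_contra hc
  push Not at hc
  have h1 : ∀ γ : Ordinal.{0}, g (⟨β, ⟨X, hX⟩⟩, γ) < β := by
    intro γ
    by_contra h2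
    apply hc _ (not_lt.1 h2)
    funext x
    ext p
    constructor
    · rintro ⟨z, hz, hp⟩
      have h3 := g.injective hz
      subst h3
      exact hp
    · intro hp
      exact ⟨_, rfl, hp⟩
  have h2 : Function.Injective fun γ : Ordinal.{0} => (⟨g (⟨β, ⟨X, hX⟩⟩, γ), h1 γ⟩ : Iio β) := by
    intro γ γ' h
    have h3 := g.injective (Subtype.ext_iff.1 h)
    exact (Prod.ext_iff.1 h3).2
  exact not_small_ordinal.{0, 0} (small_of_injective h2)

/-- HA-11: every small family of values lives below some place. -/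
theorem exists_bound {Ω : Type} [LinearOrder Ω] {e : Ω → ℕ → Ω → Prop}
    {code : Ordinal.{0} → Ω → Set (Cond Ordinal.{0} Ω)} (hc : PCCC (PC e code)) {ι : Type}
    (U : ι → RO (PC e code)) : ∃ β : Ordinal.{0}, ∀ i, U i ∈ S β := by
  choose A hA hgen using fun i => Pool.Agent.Helper52.MA.bound_gen hc (U i)
  let T : ι → Set Ordinal.{0} := fun i => ⋃ a ∈ A i, {j | a.c.f j ≠ Dat.emp}
  have hT : ∀ i, (T i).Countable := fun i => (hA i).biUnion fun a _ => a.c.fin.countable
  have hs : ∀ i, Small.{0} (T i) := fun i => by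
    have := (hT i).to_subtype
    infer_instance
  have hsm : Small.{0} (⋃ i, T i : Set Ordinal.{0}) := small_iUnion T
  obtain ⟨β, hβ⟩ := Ordinal.bddAbove_of_small (s := ⋃ i, T i)
  refine ⟨Order.succ β, fun i => ?_⟩
  rw [← hgen i]
  refine gen_mem_S fun a ha j hj => ?_
  exact Order.lt_succ_of_le (hβ (mem_iUnion.2 ⟨i, mem_iUnion₂.2 ⟨a, ha, hj⟩⟩))

/-- HA-11: every family of values is the family of some place. -/
theorem exists_place {Ω : Type} [LinearOrder Ω] {e : Ω → ℕ → Ω → Prop}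
    {code : Ordinal.{0} → Ω → Set (Cond Ordinal.{0} Ω)} (hc : PCCC (PC e code))
    (hcode : ∀ (β : Ordinal.{0}) (X : Ω → Set (Cond Ordinal.{0} Ω)), (∀ x, ∀ p ∈ X x, p.lt β) →
      ∃ i, β ≤ i ∧ code i = X) (U : Ω → RO (PC e code)) : ∃ i, ∀ γ, bt i γ = U γ := by
  obtain ⟨β, hβ⟩ := exists_bound hc U
  obtain ⟨i, hi, hX⟩ := hcode β
    (fun γ => {p | PC.mk (e := e) (code := code) p ∈ U γ ∧ p.lt β}) (fun x p hp => hp.2)
  refine ⟨i, fun γ => ?_⟩
  apply RO.ext'
  intro p
  constructor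
  · intro hp
    apply RO.mem_reg
    intro q hq
    obtain ⟨r, hr, a, ⟨ha, hai⟩, hra⟩ := hp q hq
    rw [hX] at ha
    exact ⟨r, hr, RO.mem_lower hra ha.1⟩
  · intro hp q hq
    have hqU : q ∈ U γ := RO.mem_lower hq hp
    have h1 : q.res β ∈ U γ := (hβ γ q).1 hqU
    refine ⟨q, le_rfl, q.res β, ⟨?_, ?_⟩, PC.le_res q β⟩
    · rw [hX]
      exact ⟨h1, PC.res_lt _ _⟩
    · intro j hj
      exact (PC.res_lt q β j hj).trans_le hi

end Pool.Agent.Helper69.HA
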