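import Pool.Agent.Helper69.HA.TopDefs

/-!
# Project HA (helper69), module T2: every subspace of the compact space is alpha-realcompact
-/

set_option autoImplicit false

namespace Pool.Agent.Helper69.HA

open Set

/-! ### Ultrafilters of closed sets -/

section HarCl

variable {T : Type*} [TopologicalSpace T] {F : Set (Set T)}

theorem Har_mem_of_fin (h1 : ∀ C ∈ F, IsClosed C)
    (h3 : ∀ H : Set (Set T), F ⊆ H → (∀ C ∈ H, IsClosed C) →
      (∀ G : Finset (Set T), (↑G : Set (Set T)) ⊆ H →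
        (⋂₀ (↑G : Set (Set T))).Nonempty) → H = F)
    {C : Set T} (hC : IsClosed C)
    (h : ∀ G : Finset (Set T), (↑G : Set (Set T)) ⊆ F → (C ∩ ⋂₀ (↑G : Set (Set T))).Nonempty) :
    C ∈ F := by
  classical
  have h4 := h3 (insert C F) (subset_insert _ _) (fun D hD => by
    rcases mem_insert_iff.1 hD with rfl | hD
    · exact hC
    · exact h1 D hD) (fun G hG => by
    obtain ⟨t, ht⟩ := h (G.erase C) (fun D hD => by
      rw [Finset.coe_erase] at hD
      rcases mem_insert_iff.1 (hG hD.1) with h5 | h5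
      · exact absurd h5 hD.2
      · exact h5)
    refine ⟨t, fun D hD => ?_⟩
    by_cases h5 : D = C
    · rw [h5]
      exact ht.1
    · exact ht.2 D (by
        rw [Finset.coe_erase]
        exact ⟨hD, h5⟩))
  rw [← h4]
  exact mem_insert _ _

theorem Har_fin_mem (h1 : ∀ C ∈ F, IsClosed C)
    (h2 : ∀ G : Finset (Set T), (↑G : Set (Set T)) ⊆ F → (⋂₀ (↑G : Set (Set T))).Nonempty)
    (h3 : ∀ H : Set (Set T), F ⊆ H → (∀ C ∈ H, IsClosed C) →
      (∀ G : Finset (Set T), (↑G : Set (Set T)) ⊆ H →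
        (⋂₀ (↑G : Set (Set T))).Nonempty) → H = F)
    (G : Finset (Set T)) (hG : (↑G : Set (Set T)) ⊆ F) : ⋂₀ (↑G : Set (Set T)) ∈ F := by
  classical
  refine Har_mem_of_fin h1 h3 (isClosed_sInter fun C hC => h1 C (hG hC)) fun G' hG' => ?_
  obtain ⟨t, ht⟩ := h2 (G ∪ G') (by
    rw [Finset.coe_union]
    exact union_subset hG hG')
  rw [Finset.coe_union] at ht
  exact ⟨t, fun C hC => ht C (Or.inl hC), fun C hC => ht C (Or.inr hC)⟩

theorem Har_mem_of_meets (h1 : ∀ C ∈ F, IsClosed C)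
    (h2 : ∀ G : Finset (Set T), (↑G : Set (Set T)) ⊆ F → (⋂₀ (↑G : Set (Set T))).Nonempty)
    (h3 : ∀ H : Set (Set T), F ⊆ H → (∀ C ∈ H, IsClosed C) →
      (∀ G : Finset (Set T), (↑G : Set (Set T)) ⊆ H →
        (⋂₀ (↑G : Set (Set T))).Nonempty) → H = F)
    {C : Set T} (hC : IsClosed C) (h : ∀ D ∈ F, (C ∩ D).Nonempty) : C ∈ F :=
  Har_mem_of_fin h1 h3 hC fun G hG => h _ (Har_fin_mem h1 h2 h3 G hG)

theorem Har_union (h1 : ∀ C ∈ F, IsClosed C)
    (h2 : ∀ G : Finset (Set T), (↑G : Set (Set T)) ⊆ F → (⋂₀ (↑G : Set (Set T))).Nonempty)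
    (h3 : ∀ H : Set (Set T), F ⊆ H → (∀ C ∈ H, IsClosed C) →
      (∀ G : Finset (Set T), (↑G : Set (Set T)) ⊆ H →
        (⋂₀ (↑G : Set (Set T))).Nonempty) → H = F)
    {A B : Set T} (hA : IsClosed A) (hB : IsClosed B) (h : A ∪ B ∈ F) : A ∈ F ∨ B ∈ F := by
  classical
  by_contra hn
  push Not at hn
  obtain ⟨hnA, hnB⟩ := hn
  have hA' : ∃ D ∈ F, ¬ (A ∩ D).Nonempty := by
    by_contra h5
    push Not at h5
    exact hnA (Har_mem_of_meets h1 h2 h3 hA h5)
  have hB' : ∃ D ∈ F, ¬ (B ∩ D).Nonempty := by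
    by_contra h5
    push Not at h5
    exact hnB (Har_mem_of_meets h1 h2 h3 hB h5)
  obtain ⟨D, hD, hAD⟩ := hA'
  obtain ⟨D', hD', hBD⟩ := hB'
  obtain ⟨t, ht⟩ := h2 {A ∪ B, D, D'} (by
    intro C hC
    simp only [Finset.coe_insert, Finset.coe_singleton, mem_insert_iff, mem_singleton_iff] at hC
    rcases hC with rfl | rfl | rfl
    · exact h
    · exact hD
    · exact hD')
  have h5 : t ∈ A ∪ B := ht _ (by simp)
  have h6 : t ∈ D := ht _ (by simp)
  have h7 : t ∈ D' := ht _ (by simp)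
  rcases h5 with h5 | h5
  · exact hAD ⟨t, h5, h6⟩
  · exact hBD ⟨t, h5, h7⟩

theorem Har_count (h1 : ∀ C ∈ F, IsClosed C)
    (h2 : ∀ G : Finset (Set T), (↑G : Set (Set T)) ⊆ F → (⋂₀ (↑G : Set (Set T))).Nonempty)
    (h3 : ∀ H : Set (Set T), F ⊆ H → (∀ C ∈ H, IsClosed C) →
      (∀ G : Finset (Set T), (↑G : Set (Set T)) ⊆ H →
        (⋂₀ (↑G : Set (Set T))).Nonempty) → H = F)
    (h4 : ∀ G : Set (Set T), G ⊆ F → G.Countable → (⋂₀ G).Nonempty) {ι : Type*} [Countable ι]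
    (C : ι → Set T) (hC : ∀ i, IsClosed (C i)) (hu : ∀ t, ∃ i, t ∈ C i) : ∃ i, C i ∈ F := by
  by_contra hn
  push Not at hn
  have h5 : ∀ i, ∃ D ∈ F, ¬ (C i ∩ D).Nonempty := by
    intro i
    by_contra h6
    push Not at h6
    exact hn i (Har_mem_of_meets h1 h2 h3 (hC i) h6)
  choose D hD hCD using h5
  obtain ⟨t, ht⟩ := h4 (range D) (by
    rintro _ ⟨i, rfl⟩
    exact hD i) (countable_range D)
  obtain ⟨i, hi⟩ := hu t
  exact hCD i ⟨t, hi, ht _ ⟨i, rfl⟩⟩

end HarCl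

/-! ### The points of the space -/

section HarPt

variable {Ω : Type} [LinearOrder Ω]

theorem Har_isDel_unique {b b' : Set Ω} {γ γ' : Ω} (h : IsDel b b' γ) (h' : IsDel b b' γ') :
    γ = γ' := by
  rcases lt_trichotomy γ γ' with hl | he | hl
  · exact absurd (h'.1 γ hl) h.2
  · exact he
  · exact absurd (h.1 γ' hl) h'.2

theorem Har_exists_isDel [WellFoundedLT Ω] {b b' : Set Ω} (h : b ≠ b') : ∃ γ, IsDel b b' γ := by
  have h1 : {γ | ¬ (γ ∈ b ↔ γ ∈ b')}.Nonempty := by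
    by_contra h2
    rw [Set.not_nonempty_iff_eq_empty] at h2
    apply h
    ext γ
    by_contra h3
    have h4 : γ ∈ {γ | ¬ (γ ∈ b ↔ γ ∈ b')} := h3
    rw [h2] at h4
    exact h4
  refine ⟨WellFounded.min wellFounded_lt _ h1, fun ξ hξ => ?_,
    WellFounded.min_mem wellFounded_lt _ h1⟩
  by_contra h3
  exact WellFounded.not_lt_min wellFounded_lt _ h3 hξ

open Classical in
/-- The clopen set given by the coordinate `(δ, b)`. -/
def HarD (δ : Ω) (b : Set Ω) : Set (Amb Ω) := {y | y.1 (δ, b) ≠ decide (δ ∈ b)}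

theorem Har_clopen (δ : Ω) (b : Set Ω) : IsClopen (HarD δ b) := by
  classical
  have h1 : Continuous fun y : Amb Ω => y.1 (δ, b) :=
    (continuous_apply (δ, b)).comp continuous_fst
  exact (isClopen_discrete {v : Bool | v ≠ decide (δ ∈ b)}).preimage h1

theorem Har_mem_D {mem : Set Ω → Ω → Ω ⊕ ℕ → Prop} (b' : Set Ω) (δ : Ω) (b : Set Ω) :
    ptB mem b' ∈ HarD δ b ↔ ∃ γ, IsDel b b' γ ∧ mem b δ (.inl γ) := by
  classical
  unfold HarD ptB
  simp only [mem_ofPred_eq]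
  by_cases h : ∃ γ, IsDel b b' γ ∧ mem b δ (.inl γ)
  · simp [h]
  · simp [h]

theorem Har_self {mem : Set Ω → Ω → Ω ⊕ ℕ → Prop} (b : Set Ω) (δ : Ω) :
    ptB mem b ∉ HarD δ b := by
  rw [Har_mem_D]
  rintro ⟨γ, h, -⟩
  exact h.2 Iff.rfl

theorem Har_ptB_inj {mem : Set Ω → Ω → Ω ⊕ ℕ → Prop} (hself : ∀ b δ, mem b δ (.inl δ))
    [WellFoundedLT Ω] {b b' : Set Ω} (h : ptB mem b = ptB mem b') : b = b' := by
  by_contra hne
  obtain ⟨γ, hγ⟩ := Har_exists_isDel hne
  apply Har_self (mem := mem) b γ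
  rw [h, Har_mem_D]
  exact ⟨γ, hγ, hself b γ⟩

theorem Har_open_nat (l : ℕ) : IsOpen {y : Amb Ω | y.2 = (l : OnePoint ℕ)} := by
  have h1 : IsOpen ({(l : OnePoint ℕ)} : Set (OnePoint ℕ)) := by
    have h2 := OnePoint.isOpenEmbedding_coe.isOpenMap ({l} : Set ℕ) (isOpen_discrete _)
    rwa [image_singleton] at h2
  exact h1.preimage continuous_snd

end HarPt

/-- HA-T2 (file Har.lean). -/
theorem har_spX {Ω : Type} [LinearOrder Ω] {mem : Set Ω → Ω → Ω ⊕ ℕ → Prop}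
    (hself : ∀ b δ, mem b δ (.inl δ))
    (habove : ∀ b δ ξ, δ < ξ → ¬ mem b δ (.inl ξ)) [WellFoundedLT Ω]
    (hcl : IsClosed (spX mem)) (hcard : ∃ f : Ω → ℕ → Bool, Function.Injective f)
    (hH : ∀ b, ∃ φ : Ω → ℕ, ∀ δ n, {γ | φ γ = n ∧ mem b δ (.inl γ)}.Finite)
    (S : Set (spX mem)) (F : Set (Set S)) (h1 : ∀ C ∈ F, IsClosed C)
    (h2 : ∀ G : Finset (Set S), (↑G : Set (Set S)) ⊆ F → (⋂₀ (↑G : Set (Set S))).Nonempty)
    (h3 : ∀ H : Set (Set S), F ⊆ H → (∀ C ∈ H, IsClosed C) →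
      (∀ G : Finset (Set S), (↑G : Set (Set S)) ⊆ H →
        (⋂₀ (↑G : Set (Set S))).Nonempty) → H = F)
    (h4 : ∀ G : Set (Set S), G ⊆ F → G.Countable → (⋂₀ G).Nonempty) : (⋂₀ F).Nonempty := by
  classical
  -- an ultrafilter which contains `F`, and its limit
  have hne : (Filter.generate F).NeBot := by
    rw [Filter.generate_neBot_iff]
    intro t ht hfin
    have h5 := h2 hfin.toFinset (by
      rw [hfin.coe_toFinset]
      exact ht)
    rwa [hfin.coe_toFinset] at h5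
  obtain ⟨U, hU⟩ := Ultrafilter.exists_le (Filter.generate F)
  have hFU : ∀ C ∈ F, C ∈ U := fun C hC => hU (Filter.mem_generate_of_mem hC)
  let ι : S → Amb Ω := fun s => s.1.1
  have hι : Topology.IsInducing ι :=
    Topology.IsInducing.subtypeVal.comp Topology.IsInducing.subtypeVal
  have hιX : ∀ s, ι s ∈ spX mem := fun s => s.1.2
  have hιinj : Function.Injective ι := fun s s' h => Subtype.ext (Subtype.ext h)
  obtain ⟨x, hxX, hx⟩ := hcl.isCompact.ultrafilter_le_nhds (U.map ι) (by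
    rw [Filter.le_principal_iff]
    exact Filter.mem_map.2 (Filter.univ_mem' hιX))
  have hopen : ∀ V : Set (Amb Ω), IsOpen V → x ∈ V → ι ⁻¹' V ∈ U := fun V hV hxV =>
    hx (hV.mem_nhds hxV)
  -- the case in which the limit is in `S`
  by_cases hxS : ∃ s, ι s = x
  · obtain ⟨s, rfl⟩ := hxS
    refine ⟨s, fun C hC => ?_⟩
    by_contra hsC
    have h5 : Cᶜ ∈ nhds s := (h1 C hC).isOpen_compl.mem_nhds hsC
    rw [hι.nhds_eq_comap] at h5
    obtain ⟨V, hV, hVC⟩ := h5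
    have h6 : ι ⁻¹' V ∈ U := hx hV
    have h7 : Cᶜ ∈ U := Filter.mem_of_superset h6 hVC
    have h8 := Filter.inter_mem (hFU C hC) h7
    rw [inter_compl_self] at h8
    exact Filter.empty_notMem (U : Filter S) h8
  have hxS' : ∀ s, ι s ≠ x := fun s h => hxS ⟨s, h⟩
  -- the limit is not isolated
  have hxB : ∃ b, x = ptB mem b := by
    rcases hxX with ⟨l, hl⟩ | ⟨b, hb⟩
    · exfalso
      have h5 := hopen _ (Har_open_nat l) (by
        rw [← hl]
        rfl)
      obtain ⟨s, hs⟩ := Ultrafilter.nonempty_of_mem h5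
      have h6 : (ι s).2 = (l : OnePoint ℕ) := hs
      apply hxS' s
      rcases hιX s with ⟨l', hl'⟩ | ⟨b, hb⟩
      · rw [← hl'] at h6
        have h7 : l' = l := OnePoint.coe_injective h6
        rw [← hl', ← hl, h7]
      · rw [← hb] at h6
        exact absurd h6 (OnePoint.infty_ne_coe l)
    · exact ⟨b, hb.symm⟩
  obtain ⟨b, rfl⟩ := hxB
  obtain ⟨φ, hφ⟩ := hH b
  obtain ⟨f, hf⟩ := hcard
  let Y : Set Ω → Set S := fun A => {s | ∃ b' γ, ι s = ptB mem b' ∧ IsDel b b' γ ∧ γ ∈ A}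
  have hYcl : ∀ (n : ℕ) (A : Set Ω), (∀ γ ∈ A, φ γ = n) → IsClosed (Y A) := by
    intro n A hA
    rw [← isOpen_compl_iff, isOpen_iff_mem_nhds]
    intro s hs
    rcases hιX s with ⟨l, hl⟩ | ⟨b', hb'⟩
    · have h5 : IsOpen (ι ⁻¹' {y : Amb Ω | y.2 = (l : OnePoint ℕ)}) :=
        (Har_open_nat l).preimage hι.continuous
      refine Filter.mem_of_superset (h5.mem_nhds ?_) ?_
      · change (ι s).2 = (l : OnePoint ℕ)
        rw [← hl]
        rfl
      · rintro s' hs' ⟨b'', γ, h6, -, -⟩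
        have h7 : (ι s').2 = (l : OnePoint ℕ) := hs'
        rw [h6] at h7
        exact OnePoint.infty_ne_coe l h7
    · have hbb : b ≠ b' := by
        rintro rfl
        exact hxS' s hb'.symm
      obtain ⟨γ₀, hγ₀⟩ := Har_exists_isDel hbb
      have hγA : γ₀ ∉ A := fun h => hs ⟨b', γ₀, hb'.symm, hγ₀, h⟩
      have hfin : {γ | φ γ = n ∧ mem b γ₀ (.inl γ)}.Finite := hφ γ₀ n
      let N : Set (Amb Ω) := HarD γ₀ b ∩
        ⋂ γ ∈ {γ | φ γ = n ∧ mem b γ₀ (.inl γ)} ∩ A, (HarD γ b)ᶜ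
      have hN : IsOpen N := (Har_clopen γ₀ b).isOpen.inter
        ((hfin.subset inter_subset_left).isOpen_biInter fun γ _ =>
          (Har_clopen γ b).isClosed.isOpen_compl)
      refine Filter.mem_of_superset ((hN.preimage hι.continuous).mem_nhds ?_) ?_
      · change ι s ∈ N
        rw [← hb']
        refine ⟨(Har_mem_D b' γ₀ b).2 ⟨γ₀, hγ₀, hself b γ₀⟩, ?_⟩
        rw [mem_iInter₂]
        rintro γ ⟨⟨hγ1, hγ2⟩, hγA'⟩
        rw [mem_compl_iff, Har_mem_D]
        rintro ⟨γ', hγ', hm⟩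
        have h8 : γ' = γ₀ := Har_isDel_unique hγ' hγ₀
        subst h8
        have h9 : γ < γ' := by
          rcases lt_trichotomy γ γ' with h | h | h
          · exact h
          · exact absurd (h ▸ hγA') hγA
          · exact absurd hγ2 (habove b γ' γ h)
        exact habove b γ γ' h9 hm
      · rintro s' ⟨hs1, hs2⟩ ⟨b'', γ, h6, h7, h8⟩
        rw [h6, Har_mem_D] at hs1
        obtain ⟨γ', hγ', hm⟩ := hs1
        have h9 : γ' = γ := Har_isDel_unique hγ' h7
        subst h9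
        rw [mem_iInter₂] at hs2
        have h10 := hs2 γ' ⟨⟨hA γ' h8, hm⟩, h8⟩
        apply h10
        rw [h6, Har_mem_D]
        exact ⟨γ', h7, hself b γ'⟩
  -- one of the countably many closed sets is in `F`
  have hcov := Har_count h1 h2 h3 h4 (ι := ℕ ⊕ ℕ)
    (fun i => Sum.elim (fun l => {s | ι s = ptN mem l}) (fun n => Y {γ | φ γ = n}) i)
    (fun i => by
      rcases i with l | n
      · exact isClosed_singleton.preimage hι.continuous
      · exact hYcl n _ fun γ hγ => hγ)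
    (fun s => by
      rcases hιX s with ⟨l, hl⟩ | ⟨b', hb'⟩
      · exact ⟨.inl l, hl.symm⟩
      · have hbb : b ≠ b' := by
          rintro rfl
          exact hxS' s hb'.symm
        obtain ⟨γ₀, hγ₀⟩ := Har_exists_isDel hbb
        exact ⟨.inr (φ γ₀), b', γ₀, hb'.symm, hγ₀, rfl⟩)
  obtain ⟨i, hi⟩ := hcov
  rcases i with l | n
  · -- a singleton
    have hi' : {s | ι s = ptN mem l} ∈ F := hi
    obtain ⟨s₀, hs₀⟩ := h2 {{s | ι s = ptN mem l}} (by
      rw [Finset.coe_singleton, singleton_subset_iff]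
      exact hi')
    have hs₀' : ι s₀ = ptN mem l := hs₀ {s | ι s = ptN mem l} (by simp)
    refine ⟨s₀, fun C hC => ?_⟩
    obtain ⟨s, hs⟩ := h2 {{s | ι s = ptN mem l}, C} (by
      intro D hD
      simp only [Finset.coe_insert, Finset.coe_singleton, mem_insert_iff,
        mem_singleton_iff] at hD
      rcases hD with rfl | rfl
      · exact hi'
      · exact hC)
    have h5 : ι s = ptN mem l := hs {s | ι s = ptN mem l} (by simp)
    have h6 : s ∈ C := hs C (by simp)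
    have h7 : s = s₀ := hιinj (h5.trans hs₀'.symm)
    rwa [← h7]
  · exfalso
    have hi' : Y {γ | φ γ = n} ∈ F := hi
    have h5 : ∀ k : ℕ, ∃ v : Bool, Y {γ | φ γ = n ∧ f γ k = v} ∈ F := by
      intro k
      have h6 : Y {γ | φ γ = n} =
          Y {γ | φ γ = n ∧ f γ k = true} ∪ Y {γ | φ γ = n ∧ f γ k = false} := by
        ext s
        constructor
        · rintro ⟨b', γ, a1, a2, a3⟩
          rcases hv : f γ k with _ | _
          · exact Or.inr ⟨b', γ, a1, a2, a3, hv⟩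
          · exact Or.inl ⟨b', γ, a1, a2, a3, hv⟩
        · rintro (⟨b', γ, a1, a2, a3⟩ | ⟨b', γ, a1, a2, a3⟩)
          · exact ⟨b', γ, a1, a2, a3.1⟩
          · exact ⟨b', γ, a1, a2, a3.1⟩
      rw [h6] at hi'
      rcases Har_union h1 h2 h3 (hYcl n _ fun γ hγ => hγ.1) (hYcl n _ fun γ hγ => hγ.1) hi'
        with h7 | h7
      · exact ⟨true, h7⟩
      · exact ⟨false, h7⟩
    choose v hv using h5
    have key : ∀ C ∈ F, ∃ s ∈ C, ∃ b' γ, ι s = ptB mem b' ∧ IsDel b b' γ ∧ f γ = v := by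
      intro C hC
      obtain ⟨s, hs⟩ := h4 (insert C (range fun k => Y {γ | φ γ = n ∧ f γ k = v k})) (by
        intro D hD
        rcases mem_insert_iff.1 hD with rfl | ⟨k, rfl⟩
        · exact hC
        · exact hv k) ((countable_range _).insert _)
      refine ⟨s, hs _ (mem_insert _ _), ?_⟩
      have h6 : ∀ k, s ∈ Y {γ | φ γ = n ∧ f γ k = v k} := fun k =>
        hs _ (mem_insert_of_mem _ ⟨k, rfl⟩)
      obtain ⟨b', γ, a1, a2, a3⟩ := h6 0
      refine ⟨b', γ, a1, a2, funext fun k => ?_⟩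
      obtain ⟨b'', γ', c1, c2, c3⟩ := h6 k
      have h7 : b' = b'' := Har_ptB_inj hself (a1.symm.trans c1)
      subst h7
      have h8 : γ = γ' := Har_isDel_unique a2 c2
      subst h8
      exact c3.2
    obtain ⟨s₁, hs₁, b₁, γ₁, a1, a2, a3⟩ := key _ hi'
    have hE : (ι ⁻¹' HarD γ₁ b) ∈ F := by
      refine Har_mem_of_meets h1 h2 h3 ((Har_clopen γ₁ b).isClosed.preimage hι.continuous)
        fun C hC => ?_
      obtain ⟨s₂, hs₂, b₂, γ₂, c1, c2, c3⟩ := key C hC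
      have h6 : γ₂ = γ₁ := hf (c3.trans a3.symm)
      subst h6
      refine ⟨s₂, ?_, hs₂⟩
      change ι s₂ ∈ HarD γ₂ b
      rw [c1, Har_mem_D]
      exact ⟨γ₂, c2, hself b γ₂⟩
    have h6 := hopen (HarD γ₁ b)ᶜ (Har_clopen γ₁ b).isClosed.isOpen_compl (Har_self b γ₁)
    have h7 := Filter.inter_mem (hFU _ hE) h6
    rw [preimage_compl, inter_compl_self] at h7
    exact Filter.empty_notMem (U : Filter S) h7

end Pool.Agent.Helper69.HA
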